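import Pool.Agent.Helper42.PP.Goals1
import Pool.Agent.Helper42.RD.EXA
import Pool.Agent.Helper14.RD.TOW

/-!
# Project PP, packet P_VIS: the visible primes
-/

set_option autoImplicit false

namespace Pool.Agent.Helper79.PP

open NumberField Polynomial Module IsDedekindDomain Pool.Agent.Helper51.SigLeo
open Pool.Agent.Helper51.RP Pool.Agent.Helper42.RD
open Pool.Agent.Helper40.RS (bel gw absNorm_free val_smul)
open Pool.Agent.Helper40.RD (bel_of_above valW)

section tower

variable {K A C : Type} [Field K] [NumberField K] [Field A] [NumberField A] [Field C]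
  [NumberField C] [Algebra K A] [Algebra A C] [Algebra K C] [IsScalarTower K A C]
  [IsGalois K A] [IsGalois K C]

omit [IsScalarTower K A C] [IsGalois K A] [IsGalois K C] [NumberField K] [Field K] [Algebra K A]
  [Algebra K C] in
theorem mem_bel (W : HeightOneSpectrum (𝓞 C)) (x : 𝓞 A) :
    x ∈ (bel A W).asIdeal ↔ W.valuation C (algebraMap A C (x : A)) < 1 := by
  have h := W.valuation_lt_one_iff_mem (K := C) (algebraMap (𝓞 A) (𝓞 C) x)
  exact h.symm

omit [IsScalarTower K A C] [IsGalois K A] [IsGalois K C] [NumberField K] [Field K] [Algebra K A]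
  [Algebra K C] in
theorem ram_ne (W : HeightOneSpectrum (𝓞 C)) :
    (bel A W).asIdeal.ramificationIdx' W.asIdeal ≠ 0 :=
  Ideal.IsDedekindDomain.ramificationIdx'_ne_zero_of_liesOver W.asIdeal (bel A W).ne_bot

omit [IsGalois K A] in
/-- A prime below a prime with trivial decomposition group. -/
theorem free_bel (W : HeightOneSpectrum (𝓞 C)) (hW : FreeP K W) : FreeP K (bel A W) := by
  have hG : IsGalois A C := IsGalois.tower_top_of_isGalois K A C
  intro g hg
  obtain ⟨g', hg'⟩ : ∃ g' : C ≃ₐ[K] C, ∀ x : A, g' (algebraMap A C x) = algebraMap A C (g x) :=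
    ⟨g.liftNormal C, fun x => AlgEquiv.liftNormal_commutes g C x⟩
  have hv : ∀ y : C, (gw g' W).valuation C (g' y) = W.valuation C y :=
    fun y => val_smul g' W (gw g' W) rfl y
  have h1 : bel A (gw g' W) = bel A W := by
    apply HeightOneSpectrum.ext
    ext x
    rw [mem_bel, mem_bel]
    have h2 : algebraMap A C (x : A) = g' (algebraMap A C (g⁻¹ (x : A))) := by
      rw [hg']
      congr 1
      show (x : A) = (g * g⁻¹) (x : A)
      rw [mul_inv_cancel]
      rfl
    have h3 : W.valuation C (algebraMap A C (g⁻¹ (x : A))) =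
        W.valuation C (algebraMap A C (x : A)) := by
      rw [valW, valW, ← hg (g⁻¹ (x : A))]
      have h4 : g (g⁻¹ (x : A)) = (x : A) := by
        show (g * g⁻¹) (x : A) = (x : A)
        rw [mul_inv_cancel]
        rfl
      rw [h4]
    conv_lhs => rw [h2, hv, h3]
  obtain ⟨h, hh⟩ := conj_of_bel' (K := A) h1
  have hk := hW ((h.restrictScalars K)⁻¹ * g') (fun y => by
    rw [← hh, ← hv y]
    congr 1
    show ((h.restrictScalars K) * ((h.restrictScalars K)⁻¹ * g')) y = g' y
    rw [mul_inv_cancel_left])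
  have hk2 : g' = h.restrictScalars K := (inv_mul_eq_one.1 hk).symm
  apply AlgEquiv.ext
  intro x
  apply (algebraMap A C).injective
  rw [← hg' x, hk2]
  show h (algebraMap A C x) = algebraMap A C x
  exact h.commutes x

omit [IsGalois K C] [NumberField K] in
/-- An automorphism which preserves the valuation of `W` is trivial on `A` if the prime below has
trivial decomposition group. -/
theorem fix_of_free (W : HeightOneSpectrum (𝓞 C)) (hf : FreeP K (bel A W)) (g : C ≃ₐ[K] C)
    (hg : ∀ y : C, W.valuation C (g y) = W.valuation C y) (x : A) :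
    g (algebraMap A C x) = algebraMap A C x := by
  have h1 : g.restrictNormal A = 1 := by
    apply hf
    intro y
    have h2 : W.valuation C (algebraMap A C (g.restrictNormal A y)) =
        W.valuation C (algebraMap A C y) := by
      rw [AlgEquiv.restrictNormal_commutes, hg]
    rw [valW, valW] at h2
    exact (pow_left_inj₀ zero_le zero_le (ram_ne (A := A) W)).mp h2
  have h2 := AlgEquiv.restrictNormal_commutes g A x
  rw [h1] at h2
  exact h2.symm

end tower

theorem dvd_norm {p : ℕ} [Fact p.Prime] {K₁ : Type} [Field K₁] [NumberField K₁] {ε : K₁}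
    (hε : IsPrimitiveRoot ε p) (Q : HeightOneSpectrum (𝓞 K₁))
    (hQ : Q.valuation K₁ (p : K₁) = 1) : p ∣ Ideal.absNorm Q.asIdeal - 1 := by
  have hp : p.Prime := Fact.out
  let e : 𝓞 K₁ := ⟨ε, hε.isIntegral hp.pos⟩
  have hepow : e ^ p = 1 := by
    apply RingOfIntegers.ext
    show ε ^ p = 1
    exact hε.pow_eq_one
  have hene : e ≠ 1 := by
    intro h
    apply hε.ne_one hp.one_lt
    exact congrArg (fun z : 𝓞 K₁ => (z : K₁)) h
  have hpQ : (p : 𝓞 K₁) ∉ Q.asIdeal := (natCast_notMem_iff Q p).2 hQ
  have hQm : Q.asIdeal.IsMaximal := Q.isMaximal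
  let _ : Field (𝓞 K₁ ⧸ Q.asIdeal) := Ideal.Quotient.field _
  have hcard : Nat.card (𝓞 K₁ ⧸ Q.asIdeal)ˣ = Ideal.absNorm Q.asIdeal - 1 := by
    rw [Nat.card_units, Ideal.absNorm_apply, Submodule.cardQuot_apply]
  rw [← hcard]
  have h1 : (Ideal.Quotient.mk Q.asIdeal e) ^ p = 1 := by
    rw [← map_pow, hepow, map_one]
  have h2 : Ideal.Quotient.mk Q.asIdeal e ≠ 1 := by
    intro h
    rw [← map_one (Ideal.Quotient.mk Q.asIdeal), Ideal.Quotient.eq] at h
    exact hpQ (Ideal.mem_of_dvd _ (sub_one_dvd hepow hene) h)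
  obtain ⟨u, hu⟩ : ∃ u : (𝓞 K₁ ⧸ Q.asIdeal)ˣ, (u : 𝓞 K₁ ⧸ Q.asIdeal) =
      Ideal.Quotient.mk Q.asIdeal e := by
    refine ⟨Units.mk0 (Ideal.Quotient.mk Q.asIdeal e) ?_, rfl⟩
    intro h
    rw [h, zero_pow hp.ne_zero] at h1
    exact zero_ne_one h1
  have h3 : orderOf u = p := by
    apply orderOf_eq_prime
    · apply Units.ext
      rw [Units.val_pow_eq_pow_val, hu, h1, Units.val_one]
    · intro h
      apply h2
      rw [← hu, h, Units.val_one]
  rw [← h3]
  exact orderOf_dvd_natCard u

theorem p_vis : Pool.Agent.Helper42.PP.P_VIS := by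
  intro p _ K M K₁ M₁ _ _ _ _ _ _ _ _ _ _ _ _ _ _ _ _ _ _ ε hT v hv
  refine ⟨?_, ?_, ?_⟩
  · intro W hWv hW
    have hb : bel K W = v := bel_of_above hWv
    have hnorm : Ideal.absNorm W.asIdeal = Ideal.absNorm v.asIdeal := by
      rw [← hb]
      exact absNorm_free W hW
    refine ⟨hnorm, ?_, ?_⟩
    · intro w hw
      obtain rfl := bel_of_above hw
      have hf : FreeP K (bel M W) := free_bel W hW
      have hb2 : bel K (bel M W) = v := (bel_bel W).trans hb
      refine ⟨hf, ?_, ?_⟩
      · have h := absNorm_free (K := K) (bel M W) hf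
        rw [h, hb2]
      · exact congrArg HeightOneSpectrum.asIdeal hb2
    · intro Q hQ
      obtain rfl := bel_of_above hQ
      have hf : FreeP K (bel K₁ W) := free_bel W hW
      have hb2 : bel K (bel K₁ W) = v := (bel_bel W).trans hb
      refine ⟨hf, ?_, ?_⟩
      · have h := absNorm_free (K := K) (bel K₁ W) hf
        rw [h, hb2]
      · exact congrArg HeightOneSpectrum.asIdeal hb2
  · intro w Q W hw hQ hW hfw hfQ
    have hb : bel K W = v := bel_of_above hW
    have h1 : FreeP K (bel M W) := by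
      refine free_of_conj (v := w) (conj_of_bel' ?_) hfw
      rw [bel_bel W, hb, bel_of_above hw]
    have h2 : FreeP K (bel K₁ W) := by
      refine free_of_conj (v := Q) (conj_of_bel' ?_) hfQ
      rw [bel_bel W, hb, bel_of_above hQ]
    intro g hg
    exact hT.lin g (fix_of_free W h1 g hg) (fix_of_free W h2 g hg)
  · intro Q hQ hfQ
    have hb : bel K Q = v := bel_of_above hQ
    have hnorm : Ideal.absNorm Q.asIdeal = Ideal.absNorm v.asIdeal := by
      rw [← hb]
      exact absNorm_free Q hfQ
    refine ⟨hnorm, ?_⟩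
    rw [← hnorm]
    apply dvd_norm hT.prim Q
    have h := valW (M := K) Q (p : K)
    rw [hb, hv, one_pow, map_natCast] at h
    exact h

end Pool.Agent.Helper79.PP
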