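import Pool.Agent.Helper17.PP.GoalsC1

/-!
# Project PP (MP_fc6b1e_nt), packet PP-C_PSM: bound for the other parts
-/

namespace Pool.Agent.Helper79.PP

open Finset Pool.Agent.Helper17.PP

section

variable {p : ℕ} {B B₀ k U Λ C : Type} [Field k] [Fintype k] [Algebra (ZMod p) k]
    [AddCommGroup U] [Module k U] [Fintype U] [AddCommGroup Λ] [Module k Λ] [Fintype Λ]
    [AddCommGroup C] (S : Sys p B B₀ k U Λ C)

/-- The summand of `part`. -/
noncomputable def summ (ψ : AddChar k ℂ) (χ : AddChar Λ ℂ) (b : Finset B) (q : B) (D : Finset B)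
    (x : U) (t : k) (c y : B → k) : ℂ :=
  χ (S.lam₀ x + ∑ q' ∈ b, S.lam q' (S.trc b q t c q')) *
    ∏ q' ∈ D, ψ (y q' * S.R b x (S.trc b q t c) q')

theorem norm_summ (ψ : AddChar k ℂ) (χ : AddChar Λ ℂ) (b : Finset B) (q : B) (D : Finset B)
    (x : U) (t : k) (c y : B → k) : ‖summ S ψ χ b q D x t c y‖ ≤ 1 := by
  unfold summ
  rw [norm_mul, norm_prod, AddChar.norm_apply, one_mul]
  refine le_of_eq (Finset.prod_eq_one fun q' _ => ?_)
  rw [AddChar.norm_apply]

theorem summ_add (ψ : AddChar k ℂ) (χ : AddChar Λ ℂ) (b : Finset B) (q : B) (D : Finset B)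
    (x u : U) (t : k) (c y : B → k) :
    summ S ψ χ b q D (x + u) t c y = S.fU ψ χ D y u * summ S ψ χ b q D x t c y := by
  unfold summ Sys.fU
  have h1 : S.lam₀ (x + u) + ∑ q' ∈ b, S.lam q' (S.trc b q t c q') =
      S.lam₀ u + (S.lam₀ x + ∑ q' ∈ b, S.lam q' (S.trc b q t c q')) := by
    rw [map_add]
    abel
  have h2 : ∀ q', y q' * S.R b (x + u) (S.trc b q t c) q' =
      y q' * S.res q' u + y q' * S.R b x (S.trc b q t c) q' := by
    intro q'
    unfold Sys.R
    rw [map_add]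
    ring
  rw [h1, AddChar.map_add_eq_mul]
  have h3 : ∏ q' ∈ D, ψ (y q' * S.R b (x + u) (S.trc b q t c) q') =
      (∏ q' ∈ D, ψ (y q' * S.res q' u)) * ∏ q' ∈ D, ψ (y q' * S.R b x (S.trc b q t c) q') := by
    rw [← Finset.prod_mul_distrib]
    refine Finset.prod_congr rfl fun q' _ => ?_
    rw [h2, AddChar.map_add_eq_mul]
  rw [h3]
  ring

open Classical in
/-- The function with the value `z` at `r`. -/
noncomputable def sgl (r : B) (z : k) : B → k := fun q' => if q' = r then z else 0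

theorem trc_add (b : Finset B) (q : B) (t : k) (c : B → k) {r : B} (hr : r ∈ S.rs b q) (z : k)
    (q' : B) : S.trc b q t (c + sgl r z) q' = S.trc b q t c q' + sgl r z q' := by
  classical
  have hrq : r ≠ q := by
    unfold Sys.rs at hr
    exact (Finset.mem_erase.1 (Finset.mem_filter.1 hr).1).1
  unfold Sys.trc sgl
  by_cases h1 : q' = q
  · rw [if_pos h1, if_pos h1, if_neg (by rw [h1]; exact hrq.symm), add_zero]
  · rw [if_neg h1, if_neg h1]
    by_cases h2 : q' ∈ S.rs b q
    · rw [if_pos h2, if_pos h2]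
      rfl
    · rw [if_neg h2, if_neg h2, if_neg, add_zero]
      rintro rfl
      exact h2 hr

theorem R_add (b : Finset B) (q : B) (x : U) (t : k) (c : B → k) {r : B} (hr : r ∈ S.rs b q)
    (z : k) {q' : B} (hq' : q' ≠ r) :
    S.R b x (S.trc b q t (c + sgl r z)) q' = S.R b x (S.trc b q t c) q' + z * S.a q' r := by
  classical
  have hrb : r ∈ b := by
    unfold Sys.rs at hr
    exact (Finset.mem_erase.1 (Finset.mem_filter.1 hr).1).2
  have h1 : (fun s => S.trc b q t (c + sgl r z) s) =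
      fun s => S.trc b q t c s + sgl r z s := funext fun s => trc_add S b q t c hr z s
  have h2 : S.trc b q t (c + sgl r z) = fun s => S.trc b q t c s + sgl r z s := h1
  rw [h2]
  unfold Sys.R
  have h3 : sgl r z q' = 0 := by
    unfold sgl
    rw [if_neg hq']
  have h4 : ∑ s ∈ b.erase q', (S.trc b q t c s + sgl r z s) * S.a q' s =
      (∑ s ∈ b.erase q', S.trc b q t c s * S.a q' s) + z * S.a q' r := by
    have h5 : ∀ s ∈ b.erase q', (S.trc b q t c s + sgl r z s) * S.a q' s =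
        S.trc b q t c s * S.a q' s + (if s = r then z * S.a q' r else 0) := by
      intro s _
      rw [add_mul]
      congr 1
      unfold sgl
      by_cases h6 : s = r
      · rw [if_pos h6, if_pos h6, h6]
      · rw [if_neg h6, if_neg h6, zero_mul]
    rw [Finset.sum_congr rfl h5, Finset.sum_add_distrib, Finset.sum_ite_eq', if_pos]
    exact Finset.mem_erase.2 ⟨hq'.symm, hrb⟩
  simp only [h3, add_zero]
  rw [h4]
  ring

theorem summ_add' (ψ : AddChar k ℂ) (χ : AddChar Λ ℂ) (b : Finset B) (q : B) (D : Finset B)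
    (x : U) (t : k) (c y : B → k) {r : B} (hr : r ∈ S.rs b q) (hrD : r ∉ D) (z : k) :
    summ S ψ χ b q D x t (c + sgl r z) y = S.fB ψ χ D y r z * summ S ψ χ b q D x t c y := by
  classical
  have hrb : r ∈ b := by
    unfold Sys.rs at hr
    exact (Finset.mem_erase.1 (Finset.mem_filter.1 hr).1).2
  unfold summ Sys.fB
  have h1 : S.lam₀ x + ∑ q' ∈ b, S.lam q' (S.trc b q t (c + sgl r z) q') =
      S.lam r z + (S.lam₀ x + ∑ q' ∈ b, S.lam q' (S.trc b q t c q')) := by
    have h5 : ∀ s ∈ b, S.lam s (S.trc b q t (c + sgl r z) s) =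
        S.lam s (S.trc b q t c s) + (if s = r then S.lam r z else 0) := by
      intro s _
      rw [trc_add S b q t c hr z s, map_add]
      congr 1
      unfold sgl
      by_cases h6 : s = r
      · rw [if_pos h6, if_pos h6, h6]
      · rw [if_neg h6, if_neg h6, map_zero]
    rw [Finset.sum_congr rfl h5, Finset.sum_add_distrib, Finset.sum_ite_eq', if_pos hrb]
    abel
  rw [h1, AddChar.map_add_eq_mul]
  have h3 : ∏ q' ∈ D, ψ (y q' * S.R b x (S.trc b q t (c + sgl r z)) q') =
      (∏ q' ∈ D, ψ (y q' * (z * S.a q' r))) *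
        ∏ q' ∈ D, ψ (y q' * S.R b x (S.trc b q t c) q') := by
    rw [← Finset.prod_mul_distrib]
    refine Finset.prod_congr rfl fun q' hq' => ?_
    rw [R_add S b q x t c hr z (fun h => hrD (h ▸ hq')), mul_add, AddChar.map_add_eq_mul, mul_comm]
  rw [h3]
  ring

end

theorem c_psm (hlab : C_LAB) : Pool.Agent.Helper17.PP.C_PSM := by
  intro p _ B B₀ k U Λ C _ _ _ _ _ _ _ _ _ _ S ψ E P b q hbP hq D hD χ
  classical
  obtain ⟨hcard, -, h3, -, -⟩ := hlab B k P
  have hQ : (0 : ℝ) < (Fintype.card k : ℝ) := by exact_mod_cast Fintype.card_pos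
  have hL : (0 : ℝ) < ((lab k P).card : ℝ) := by
    rw [hcard]
    push_cast
    positivity
  have hΛ : (1 : ℝ) ≤ (Fintype.card Λ : ℝ) := by exact_mod_cast Fintype.card_pos
  set cd : (B → k) → Prop := fun y => ∀ q' ∈ S.rg E b q, y q' ≠ 0 ↔ q' ∈ D with hcd
  set T : Finset k := Finset.univ.filter (fun t : k => t ≠ 0) with hT
  set Y : Finset (B → k) := (lab k P).filter (fun y => ∀ q' ∈ S.rg E b q, y q' ≠ 0 ↔ q' ∈ D)
    with hY
  set G : Finset (B → k) := (lab k P).filter fun y ↦ (∀ q' ∈ S.rg E b q, y q' ≠ 0 ↔ q' ∈ D) ∧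
        (∀ x : U, S.fU ψ χ D y x = 1) ∧
        ∀ q'' ∈ S.rs b q, q'' ∉ D → ∀ t : k, S.fB ψ χ D y q'' t = 1 with hG
  have hpart : S.part ψ E P b q D χ =
      ((Fintype.card k : ℂ) ^ (S.rs b q).card / (Fintype.card Λ * ((lab k P).card : ℂ) ^ 2)) *
        ∑ x : U, ∑ t ∈ T, ∑ c ∈ lab k P, ∑ y ∈ Y, summ S ψ χ b q D x t c y := rfl
  have hre : ∑ x : U, ∑ t ∈ T, ∑ c ∈ lab k P, ∑ y ∈ Y, summ S ψ χ b q D x t c y =
      ∑ t ∈ T, ∑ y ∈ Y, ∑ x : U, ∑ c ∈ lab k P, summ S ψ χ b q D x t c y := by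
    rw [Finset.sum_comm]
    refine Finset.sum_congr rfl fun t _ => ?_
    rw [Finset.sum_congr rfl (fun x _ => Finset.sum_comm), Finset.sum_comm]
  have hzero : ∀ t : k, ∀ y ∈ Y, y ∉ G → ∑ x : U, ∑ c ∈ lab k P, summ S ψ χ b q D x t c y = 0 := by
    intro t y hy hyG
    have hy' := Finset.mem_filter.1 hy
    by_cases hu : ∀ x : U, S.fU ψ χ D y x = 1
    · have hb : ¬ ∀ q'' ∈ S.rs b q, q'' ∉ D → ∀ t : k, S.fB ψ χ D y q'' t = 1 := by
        intro h
        exact hyG (Finset.mem_filter.2 ⟨hy'.1, hy'.2, hu, h⟩)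
      push Not at hb
      obtain ⟨r, hr, hrD, z, hz⟩ := hb
      have hrb : r ∈ b := by
        have hr' := hr
        unfold Sys.rs at hr'
        exact (Finset.mem_erase.1 (Finset.mem_filter.1 hr').1).2
      refine Finset.sum_eq_zero fun x _ => ?_
      refine h3 (fun c => summ S ψ χ b q D x t c y) _ hz (sgl r z) ?_ fun c _ =>
        summ_add' S ψ χ b q D x t c y hr hrD z
      rw [mem_lab]
      intro s hs
      unfold sgl
      rw [if_neg]
      rintro rfl
      exact hs (hbP hrb)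
    · push Not at hu
      obtain ⟨u, hu⟩ := hu
      rw [Finset.sum_comm]
      refine Finset.sum_eq_zero fun c _ => ?_
      have h5 : ∑ x : U, summ S ψ χ b q D (x + u) t c y = ∑ x : U, summ S ψ χ b q D x t c y :=
        Equiv.sum_comp (Equiv.addRight u) fun x => summ S ψ χ b q D x t c y
      simp only [summ_add] at h5
      rw [← Finset.mul_sum] at h5
      by_contra hne
      exact hu (mul_right_cancel₀ hne (by rw [h5, one_mul]))
  have hnorm : ∀ t : k, ∀ y : B → k, ‖∑ x : U, ∑ c ∈ lab k P, summ S ψ χ b q D x t c y‖ ≤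
      (Fintype.card U : ℝ) * (lab k P).card := by
    intro t y
    refine (norm_sum_le _ _).trans ?_
    have h5 : ∀ x ∈ (Finset.univ : Finset U), ‖∑ c ∈ lab k P, summ S ψ χ b q D x t c y‖ ≤
        ((lab k P).card : ℝ) := by
      intro x _
      refine (norm_sum_le _ _).trans ?_
      refine (Finset.sum_le_sum fun c _ => norm_summ S ψ χ b q D x t c y).trans ?_
      rw [Finset.sum_const, nsmul_eq_mul, mul_one]
    refine (Finset.sum_le_sum h5).trans ?_
    rw [Finset.sum_const, nsmul_eq_mul, Finset.card_univ]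
  have hGY : G ⊆ Y := by
    intro y hy
    have h5 := Finset.mem_filter.1 hy
    exact Finset.mem_filter.2 ⟨h5.1, h5.2.1⟩
  have htot : ‖∑ t ∈ T, ∑ y ∈ Y, ∑ x : U, ∑ c ∈ lab k P, summ S ψ χ b q D x t c y‖ ≤
      (Fintype.card k : ℝ) * ((G.card : ℝ) * ((Fintype.card U : ℝ) * (lab k P).card)) := by
    refine (norm_sum_le _ _).trans ?_
    have h5 : ∀ t ∈ T, ‖∑ y ∈ Y, ∑ x : U, ∑ c ∈ lab k P, summ S ψ χ b q D x t c y‖ ≤
        (G.card : ℝ) * ((Fintype.card U : ℝ) * (lab k P).card) := by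
      intro t _
      rw [← Finset.sum_subset hGY (hzero t)]
      refine (norm_sum_le _ _).trans ?_
      refine (Finset.sum_le_sum fun y _ => hnorm t y).trans ?_
      rw [Finset.sum_const, nsmul_eq_mul]
    refine (Finset.sum_le_sum h5).trans ?_
    rw [Finset.sum_const, nsmul_eq_mul]
    refine mul_le_mul_of_nonneg_right ?_ (by positivity)
    exact_mod_cast (Finset.card_filter_le _ _).trans (le_of_eq Finset.card_univ)
  have hcoef : ‖(Fintype.card k : ℂ) ^ (S.rs b q).card /
      (Fintype.card Λ * ((lab k P).card : ℂ) ^ 2)‖ ≤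
      (Fintype.card k : ℝ) ^ (S.rs b q).card / ((lab k P).card : ℝ) ^ 2 := by
    rw [norm_div, norm_pow, norm_mul, norm_pow, Complex.norm_natCast, Complex.norm_natCast,
      Complex.norm_natCast]
    refine div_le_div_of_nonneg_left (by positivity) (by positivity) ?_
    nlinarith [pow_pos hL 2]
  rw [hpart, hre, norm_mul]
  refine (mul_le_mul hcoef htot (norm_nonneg _) (by positivity)).trans (le_of_eq ?_)
  field_simp

end Pool.Agent.Helper79.PP
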