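import Pool.Agent.Helper11.PP.GoalsD
import Pool.Agent.Helper32.RD.VAL

/-!
# Project PP (MP_fc6b1e_nt), packet PP-DMAP: the map from the classes to the fields
-/

namespace Pool.Agent.Helper79.PP

open NumberField Polynomial Module IsDedekindDomain TensorProduct Pool.Agent.Helper51.SigLeo
open Pool.Agent.Helper51.RP Pool.Agent.Helper42.RD Pool.Agent.Helper11.LE Pool.Agent.Helper11.PP

section cls

variable {p : ℕ} {F : Type} [Field F]

theorem clp_eq {a b : Fˣ} : clp p a = clp p b ↔ ∃ y : Fˣ, b = a * y ^ p := by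
  unfold clp
  rw [QuotientGroup.eq]
  constructor
  · rintro ⟨y, hy⟩
    refine ⟨y, ?_⟩
    have h : y ^ p = a⁻¹ * b := hy
    rw [h, mul_inv_cancel_left]
  · rintro ⟨y, rfl⟩
    refine ⟨y, ?_⟩
    show y ^ p = a⁻¹ * (a * y ^ p)
    rw [inv_mul_cancel_left]

theorem clp_one : clp p (1 : Fˣ) = 1 := rfl

theorem clp_mul (a b : Fˣ) : clp p (a * b) = clp p a * clp p b := rfl

theorem clp_pow (a : Fˣ) (n : ℕ) : clp p (a ^ n) = clp p a ^ n := rfl

theorem clp_eq_one {a : Fˣ} : clp p a = 1 ↔ Pw p a := by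
  rw [← clp_one, eq_comm, clp_eq]
  unfold Pw
  simp only [one_mul]

end cls

section gen

variable {p : ℕ} [Fact p.Prime] {K K₁ : Type} [Field K] [Field K₁] [Algebra K K₁]
  {j : K₁ →+* AlgebraicClosure K} {N : IntermediateField K (AlgebraicClosure K)}

omit [Fact p.Prime] [Algebra K K₁] in
theorem gen_mul {a : K₁ˣ} (h : Gen p j a N) (y : K₁ˣ) : Gen p j (a * y ^ p) N := by
  intro s hs g hg hg'
  have hy0 : j (y : K₁) ≠ 0 := by
    rw [Ne, map_eq_zero_iff _ j.injective]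
    exact y.ne_zero
  have h1 : (s / j (y : K₁)) ^ p = j (a : K₁) := by
    rw [div_pow, hs, Units.val_mul, Units.val_pow_eq_pow_val, map_mul, map_pow]
    exact mul_div_cancel_right₀ _ (pow_ne_zero _ hy0)
  have h2 := h _ h1 g hg hg'
  rw [map_div₀, hg'] at h2
  exact (div_left_inj' hy0).1 h2

omit [Algebra K K₁] in
theorem gen_pow {ε : K₁} (hε : IsPrimitiveRoot ε p) {a : K₁ˣ} (h : Gen p j a N) (i : ℕ) :
    Gen p j (a ^ i) N := by
  have hp : p.Prime := Fact.out
  intro s hs g hg hg'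
  obtain ⟨t, ht⟩ := IsAlgClosed.exists_pow_nat_eq (j (a : K₁)) hp.pos
  have ht' := h t ht g hg hg'
  have ha0 : j (a : K₁) ≠ 0 := by
    rw [Ne, map_eq_zero_iff _ j.injective]
    exact a.ne_zero
  have ht0 : t ≠ 0 := by
    rintro rfl
    rw [zero_pow hp.ne_zero] at ht
    exact ha0 ht.symm
  have h1 : (s / t ^ i) ^ p = 1 := by
    rw [div_pow, hs, ← pow_mul, mul_comm i p, pow_mul, ht, Units.val_pow_eq_pow_val, map_pow]
    exact div_self (pow_ne_zero _ ha0)
  have hε' : IsPrimitiveRoot (j ε) p := hε.map_of_injective j.injective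
  have : NeZero p := ⟨hp.ne_zero⟩
  obtain ⟨k, -, hk⟩ := hε'.eq_pow_of_pow_eq_one h1
  have h2 : s = j (ε ^ k) * t ^ i := by
    rw [map_pow, hk, div_mul_cancel₀ _ (pow_ne_zero _ ht0)]
  rw [h2, map_mul, map_pow g t, ht', hg']

omit [Fact p.Prime] in
theorem om_pow {ε a : K₁} (h : OmType p K ε a) (i : ℕ) : OmType p K ε (a ^ i) := by
  intro τ
  obtain ⟨n, c, h1, h2⟩ := h τ
  refine ⟨n, c ^ i, h1, ?_⟩
  rw [map_pow, h2]
  ring

end gen

section val

variable {K₁ : Type} [Field K₁] [NumberField K₁]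

theorem ordv_mul_pow {p : ℕ} (W : HeightOneSpectrum (𝓞 K₁)) (a y : K₁ˣ) :
    ordv W ((a * y ^ p : K₁ˣ) : K₁) = ordv W (a : K₁) + p * ordv W (y : K₁) := by
  rw [Units.val_mul, Units.val_pow_eq_pow_val,
    Pool.Agent.Helper32.RDV.ordv_mul W a.ne_zero (pow_ne_zero _ y.ne_zero),
    Pool.Agent.Helper32.RDV.ordv_pow]

theorem dvd_iff {p : ℕ} (W : HeightOneSpectrum (𝓞 K₁)) (a y : K₁ˣ) :
    (p : ℤ) ∣ ordv W ((a * y ^ p : K₁ˣ) : K₁) ↔ (p : ℤ) ∣ ordv W (a : K₁) := by
  rw [ordv_mul_pow]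
  exact dvd_add_left (dvd_mul_right _ _)

/-- A nice class has valuation divisible by `p` above `p`. -/
theorem nice_val {p : ℕ} {a : K₁ˣ} (h : NiceU p a) (W : HeightOneSpectrum (𝓞 K₁))
    (hW : (p : 𝓞 K₁) ∈ W.asIdeal) : (p : ℤ) ∣ ordv W (a : K₁) := by
  obtain ⟨b, y, h1, h2⟩ := h
  rw [← dvd_iff W a y]
  have h3 : ((a * y ^ p : K₁ˣ) : K₁) = (b : K₁) := by
    rw [Units.val_mul, Units.val_pow_eq_pow_val, h2]
  rw [h3]
  have h4 : b - 1 ∈ W.asIdeal := by
    refine W.asIdeal.mem_of_dvd h1 ?_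
    rw [pow_succ]
    exact W.asIdeal.mul_mem_left _ hW
  have h5 : b ∉ W.asIdeal := by
    intro h6
    apply W.isMaximal.ne_top
    rw [Ideal.eq_top_iff_one]
    have h7 : (1 : 𝓞 K₁) = b - (b - 1) := by ring
    rw [h7]
    exact W.asIdeal.sub_mem h6 h4
  rw [Pool.Agent.Helper32.RDV.ordv_eq_zero W (W.valuation_eq_one_iff_notMem.2 h5)]
  exact dvd_zero _

end val

theorem d_map (h1 : D_EXI) (h2 : D_UNQ) (h3 : D_LIN) (h4 : D_CNV) (h5 : D_NIC) (h6 : D_SPL)
    (h7 : D_UNR) (h8 : D_TAM) : Pool.Agent.Helper11.PP.D_MAP := by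
  intro p _ K K₁ _ _ _ _ _ ε hC j hj
  classical
  have hp : p.Prime := Fact.out
  have hex : ∀ c ∈ BSet p K ε, ∃ N : IntermediateField K (AlgebraicClosure K),
      N ∈ CycN p K ∧ ∀ a : K₁ˣ, clp p a = c → Gen p j a N := by
    rintro c ⟨hc1, a, hac, hom⟩
    have hna : ¬ Pw p a := by
      rw [← clp_eq_one, hac]
      exact hc1
    obtain ⟨N, hN, hg⟩ := h1 p K K₁ ε hC j hj a hom hna
    refine ⟨N, hN, fun a' ha' => ?_⟩
    obtain ⟨y, rfl⟩ := clp_eq.1 (hac.trans ha'.symm)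
    exact gen_mul hg y
  choose! nf hnf using hex
  have hAB : ∀ c ∈ ASet p K ε, c ∈ BSet p K ε := by
    rintro c ⟨hc1, a, hac, hom, -⟩
    exact ⟨hc1, a, hac, hom⟩
  have hA : ∀ c ∈ BSet p K ε, (c ∈ ASet p K ε ↔ nf c ∈ CycF p K) := by
    intro c hc
    obtain ⟨hN, hg⟩ := hnf c hc
    constructor
    · rintro ⟨hc1, a, hac, hom, hni⟩
      have hna : ¬ Pw p a := by
        rw [← clp_eq_one, hac]
        exact hc1
      exact h6 p K K₁ ε hC j hj _ hN a hna (hg a hac) hni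
    · intro hF
      obtain ⟨hc1, a, hac, hom⟩ := hc
      have hna : ¬ Pw p a := by
        rw [← clp_eq_one, hac]
        exact hc1
      exact ⟨hc1, a, hac, hom, h5 p K K₁ ε hC j hj _ hF a hna (hg a hac)⟩
  refine ⟨nf, hnf, ?_, hA, ?_⟩
  · intro N hN
    obtain ⟨a₀, hom, hna, hg⟩ := h4 p K K₁ ε hC j hj N hN
    have hc1 : clp p a₀ ≠ 1 := fun h => hna (clp_eq_one.1 h)
    have hcp : clp p a₀ ^ p = 1 := by
      rw [← clp_pow, clp_eq_one]
      exact ⟨a₀, rfl⟩
    have hord : orderOf (clp p a₀) = p := orderOf_eq_prime hcp hc1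
    have hset : {c | c ∈ BSet p K ε ∧ nf c = N} = (fun i : ℕ => clp p a₀ ^ i) '' Set.Ico 1 p := by
      ext c
      constructor
      · rintro ⟨hc, rfl⟩
        obtain ⟨-, hgc⟩ := hnf c hc
        obtain ⟨hcne, a, hac, homa⟩ := hc
        have hnaa : ¬ Pw p a := by
          rw [← clp_eq_one, hac]
          exact hcne
        obtain ⟨i, d, hi, hd⟩ := h3 p K K₁ ε hC j hj _ hN a₀ a hna hnaa hg (hgc a hac)
        have hci : c = clp p a₀ ^ i := by
          rw [← hac, ← clp_pow]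
          exact (clp_eq.2 ⟨d, hd⟩).symm
        refine ⟨i % p, ⟨?_, Nat.mod_lt _ hp.pos⟩, ?_⟩
        · rw [Nat.one_le_iff_ne_zero]
          exact fun h => hi (Nat.dvd_of_mod_eq_zero h)
        · show clp p a₀ ^ (i % p) = c
          have h9 := pow_mod_orderOf (clp p a₀) i
          rw [hord] at h9
          rw [hci, h9]
      · rintro ⟨i, ⟨hi1, hi2⟩, rfl⟩
        have hpi : ¬ p ∣ i := Nat.not_dvd_of_pos_of_lt hi1 hi2
        have hne : clp p a₀ ^ i ≠ 1 := by
          intro h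
          have h9 := orderOf_dvd_of_pow_eq_one h
          rw [hord] at h9
          exact hpi h9
        have hB : clp p a₀ ^ i ∈ BSet p K ε := by
          refine ⟨hne, a₀ ^ i, rfl, ?_⟩
          rw [Units.val_pow_eq_pow_val]
          exact om_pow hom i
        refine ⟨hB, ?_⟩
        obtain ⟨hNc, hgc⟩ := hnf _ hB
        refine h2 p K K₁ ε hC j hj (a₀ ^ i) ?_ _ hNc N hN (hgc _ rfl) (gen_pow hC.prim hg i)
        rw [← clp_eq_one, clp_pow]
        exact hne
    rw [hset, Set.InjOn.ncard_image]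
    · rw [Set.ncard_eq_toFinset_card', Set.toFinset_Ico, Nat.card_Ico]
    · intro a ha b hb hab
      have h9 : a < orderOf (clp p a₀) := by rw [hord]; exact ha.2
      have h10 : b < orderOf (clp p a₀) := by rw [hord]; exact hb.2
      exact pow_injOn_Iio_orderOf h9 h10 hab
  · intro c hc
    have hB := hAB c hc
    have hF := (hA c hB).1 hc
    obtain ⟨hN, hg⟩ := hnf c hB
    obtain ⟨hc1, a, hac, hom, hni⟩ := hc
    have hna : ¬ Pw p a := by
      rw [← clp_eq_one, hac]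
      exact hc1
    have hiff : ∀ v : HeightOneSpectrum (𝓞 K), RamIn (nf c) v ↔ ValC c v := by
      intro v
      by_cases hv : (p : 𝓞 K) ∈ v.asIdeal
      · have hl : ¬ RamIn (nf c) v := h7 p K (nf c) hN v (hF.2.2 v hv)
        have hr : ¬ ValC c v := by
          rintro ⟨a', ha', W, hW, hnd⟩
          apply hnd
          obtain ⟨y, rfl⟩ := clp_eq.1 (hac.trans ha'.symm)
          rw [dvd_iff]
          refine nice_val hni W ?_
          have h9 : (p : 𝓞 K) ∈ W.asIdeal.comap (algebraMap (𝓞 K) (𝓞 K₁)) := by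
            rw [show W.asIdeal.comap (algebraMap (𝓞 K) (𝓞 K₁)) = v.asIdeal from hW]
            exact hv
          rw [Ideal.mem_comap, map_natCast] at h9
          exact h9
        exact iff_of_false hl hr
      · rw [h8 p K K₁ ε hC j hj _ hN a hna (hg a hac) v hv]
        constructor
        · rintro ⟨W, hW, hnd⟩
          exact ⟨a, hac, W, hW, hnd⟩
        · rintro ⟨a', ha', W, hW, hnd⟩
          obtain ⟨y, rfl⟩ := clp_eq.1 (hac.trans ha'.symm)
          rw [dvd_iff] at hnd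
          exact ⟨W, hW, hnd⟩
    unfold Pool.Agent.Helper11.PP.cond condC
    refine finprod_congr fun v => ?_
    exact finprod_congr_Prop (propext (hiff v)) fun _ => rfl

end Pool.Agent.Helper79.PP
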